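import Pool.Agent.H68.L.R_pool_sql_team_seeded_3997aac3.Q283.J2.Stm
import Pool.Agent.H68.L.R_pool_sql_team_seeded_3997aac3.Q283.GM.LA0

/-!
# The law of the coranks for a general class of primes

`A` are the active and `B` the passive primes. The matrix over the field with two elements is indexed by
the active primes of the set; the off-diagonal entries are the quadratic symbols.
-/

set_option autoImplicit false
set_option linter.unusedVariables false

open scoped Classical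

namespace Q283.GM

open Finset
open Pool.Agent.Y703.CX (sm la jj XX eL zz kk S_SIE)
open Pool.Agent.Y703.CQ (nr sg prs HB S_EQ c2)
open Pool.Agent.Y697.PQ (cf gi)

/-- the active and the passive primes -/
structure Fam where
  A : ℕ → Prop
  B : ℕ → Prop
  hA : ∀ p, A p → p.Prime ∧ p % 4 = 1
  hB : ∀ p, B p → p.Prime ∧ p ≠ 2
  dis : ∀ p, A p → ¬ B p

/-- the primes of the family -/
def Fam.P (Φ : Fam) (p : ℕ) : Prop := Φ.A p ∨ Φ.B p

theorem Fam.P.prime {Φ : Fam} {p : ℕ} (h : Φ.P p) : p.Prime := by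
  rcases h with h | h
  · exact (Φ.hA p h).1
  · exact (Φ.hB p h).1

theorem Fam.ne_two {Φ : Fam} {p : ℕ} (h : Φ.P p) : p ≠ 2 := by
  rcases h with h | h
  · rintro rfl
    have := (Φ.hA 2 h).2
    omega
  · exact (Φ.hB p h).2

/-- the kernel of the matrix of the set `S` -/
def Kr (Φ : Fam) (f : ℕ → ZMod 2) (S : Finset ℕ) : Submodule (ZMod 2) (ℕ → ZMod 2) where
  carrier := {x | (∀ p, ¬ (p ∈ S ∧ Φ.A p) → x p = 0) ∧
    ∀ p ∈ S, Φ.A p → ∑ q ∈ S, nr p q * (x q + x p) + f p * x p = 0}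
  add_mem' := by
    rintro x y ⟨h1, h2⟩ ⟨h3, h4⟩
    refine ⟨fun p hp => ?_, fun p hp ha => ?_⟩
    · rw [Pi.add_apply, h1 p hp, h3 p hp, add_zero]
    · have e1 := h2 p hp ha
      have e2 := h4 p hp ha
      have e3 : ∑ q ∈ S, nr p q * ((x + y) q + (x + y) p) + f p * (x + y) p =
          (∑ q ∈ S, nr p q * (x q + x p) + f p * x p) +
          (∑ q ∈ S, nr p q * (y q + y p) + f p * y p) := by
        have e4 : ∑ q ∈ S, nr p q * ((x + y) q + (x + y) p) =
            ∑ q ∈ S, nr p q * (x q + x p) + ∑ q ∈ S, nr p q * (y q + y p) := by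
          rw [← sum_add_distrib]
          refine sum_congr rfl fun q _ => ?_
          simp only [Pi.add_apply]
          ring
        rw [e4]
        simp only [Pi.add_apply]
        ring
      rw [e3, e1, e2, add_zero]
  zero_mem' := by
    refine ⟨fun p _ => rfl, fun p _ _ => ?_⟩
    simp only [Pi.zero_apply, add_zero, mul_zero, sum_const_zero]
  smul_mem' := by
    rintro c x ⟨h1, h2⟩
    refine ⟨fun p hp => ?_, fun p hp ha => ?_⟩
    · rw [Pi.smul_apply, h1 p hp, smul_zero]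
    · have e1 := h2 p hp ha
      have e3 : ∑ q ∈ S, nr p q * ((c • x) q + (c • x) p) + f p * (c • x) p =
          c * (∑ q ∈ S, nr p q * (x q + x p) + f p * x p) := by
        rw [mul_add, mul_sum]
        simp only [Pi.smul_apply, smul_eq_mul]
        congr 1
        · exact sum_congr rfl fun q _ => by ring
        · ring
      rw [e3, e1, mul_zero]

theorem mem_Kr {Φ : Fam} {f : ℕ → ZMod 2} {S : Finset ℕ} {x : ℕ → ZMod 2} :
    x ∈ Kr Φ f S ↔ (∀ p, ¬ (p ∈ S ∧ Φ.A p) → x p = 0) ∧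
      ∀ p ∈ S, Φ.A p → ∑ q ∈ S, nr p q * (x q + x p) + f p * x p = 0 := Iff.rfl

/-- the corank of the matrix -/
noncomputable def rk (Φ : Fam) (f : ℕ → ZMod 2) (S : Finset ℕ) : ℕ :=
  Module.finrank (ZMod 2) (Kr Φ f S)

/-- the sets with given coranks -/
def GdR (Φ : Fam) {M : ℕ} (r : Fin M → ℕ) (f : Fin M → ℕ → ZMod 2) (U : Fin M → Finset ℕ)
    (S : Finset ℕ) : Prop := ∀ k, rk Φ (f k) (symmDiff S (U k)) = r k

/-- the limit of the proportion -/
noncomputable def cR {M : ℕ} (r : Fin M → ℕ) : ℝ := ∏ k, c2 * cf (r k)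

/-- the sets of primes of the family with product at most `X` -/
noncomputable def SS (Φ : Fam) (X : ℕ) : Finset (Finset ℕ) :=
  (range (X + 1)).powerset.filter fun S => (∀ p ∈ S, Φ.P p) ∧ ∏ p ∈ S, p ≤ X

/-- the labels are not degenerate -/
def Nd (Φ : Fam) (S₀ S₁ : Finset ℕ) : Prop :=
  ∀ w : ℕ → ZMod 2, (∃ u ∈ S₀, Φ.A u ∧ w u ≠ 0) →
    ∃ p ∈ S₁, Φ.A p ∧ ∑ u ∈ S₀.filter (fun u => Φ.A u), w u * nr p u ≠ 0

/-- the function which separates two members -/
noncomputable def sep {M : ℕ} (f : Fin M → ℕ → ZMod 2) (U : Fin M → Finset ℕ) (k l : Fin M)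
    (p : ℕ) : ZMod 2 := ∑ u ∈ symmDiff (U k) (U l), nr p u + f k p + f l p

/-- the masks -/
def OkU {M : ℕ} (W : Finset ℕ) (U : Fin M → Finset ℕ) : Prop :=
  (∀ u ∈ W, u.Prime ∧ u ≠ 2) ∧ ∀ k, U k ⊆ W

/-- the labels are not degenerate and they separate the members -/
def NdF (Φ : Fam) {M : ℕ} (R : ℕ) (W : Finset ℕ) (f : Fin M → ℕ → ZMod 2) (U : Fin M → Finset ℕ)
    (S₀ S₁ : Finset ℕ) : Prop :=
  Nd Φ (S₀ ∪ W) S₁ ∧ 2 * (S₀ ∪ W).card + R ≤ (S₁.filter fun p => Φ.A p).card ∧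
    ∀ k l, k ≠ l → 2 * (S₀ ∪ W).card + R ≤
      (S₁.filter fun p => Φ.A p ∧ sep f U k l p ≠ 0).card

/-- the regular sets -/
noncomputable def RR (Φ : Fam) (X z H k V : ℕ) : Finset (Finset ℕ) :=
  (SS Φ X).filter fun S => Set.InjOn (jj H) (la z S : Set ℕ) ∧ S.card ≤ k ∧
    (∏ p ∈ sm z S, p) * ∏ p ∈ la z S, XX H (jj H p) ≤ X ∧
    2 * (sm z S).card + V < ((la z S).filter fun p => Φ.A p).card ∧
    ∃ p ∈ la z S, ¬ Φ.A p

/-- a lower bound of Mertens type for the primes of a class -/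
def HM (w : ℕ → Prop) : Prop := ∃ θ C : ℝ, 0 < θ ∧ ∀ y : ℕ, 3 ≤ y →
  θ * Real.log (Real.log y) - C ≤ ∑ p ∈ (range (y + 1)).filter (fun p => p.Prime ∧ w p), (1 : ℝ) / p

/-- the analytic facts on the family: the density `δ` of the primes, the size of the family, the
active and the passive primes are many, the active primes on which a product is a square are few -/
structure Ok (Φ : Fam) (δ : ℝ) : Prop where
  pos : 0 < δ
  le : δ ≤ 1
  up : ∃ C : ℝ, ∀ y : ℕ, 3 ≤ y →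
    ∑ p ∈ (range (y + 1)).filter (fun p => Φ.P p), (1 : ℝ) / p ≤ δ * Real.log (Real.log y) + C
  low : ∃ (c : ℝ) (X₀ : ℕ), 0 < c ∧ ∀ X : ℕ, X₀ ≤ X →
    c * X * (Real.log X) ^ (-1 + δ : ℝ) ≤ ((SS Φ X).card : ℝ)
  act : HM Φ.A
  pas : HM Φ.B
  sq : ∃ θ C : ℝ, 0 < θ ∧ 0 ≤ C ∧ ∀ (W : Finset ℕ) (y : ℕ), W.Nonempty → (∀ u ∈ W, Φ.A u) → 3 ≤ y →
    ∑ p ∈ (range (y + 1)).filter (fun p => Φ.P p ∧ (Φ.A p → p ∉ W ∧ ∑ u ∈ W, nr p u = 0)),
      (1 : ℝ) / p ≤ (δ - θ) * Real.log (Real.log y) +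
        C * Real.log (Real.log ((∏ u ∈ W, u : ℕ) : ℝ)) + C

/-- the kernel of the block system with small part restricted to the mask `m` -/
def KM {U J : Type} [Fintype U] [Fintype J] (m U1 : Finset U) (J1 : Finset J)
    (A : U → U → ZMod 2) (B : U → J → ZMod 2) (C : J → U → ZMod 2) (R : J → J → ZMod 2)
    (f : U → ZMod 2) (g : J → ZMod 2) : Submodule (ZMod 2) ((U → ZMod 2) × (J → ZMod 2)) where
  carrier := {w | ((∀ u, u ∉ U1 → w.1 u = 0) ∧ (∀ u, u ∉ m → w.1 u = 0) ∧ (∀ k, k ∉ J1 → w.2 k = 0)) ∧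
    (∀ u ∈ U1, u ∈ m →
      ∑ v ∈ m, A u v * (w.1 v + w.1 u) + ∑ l, B u l * (w.2 l + w.1 u) + f u * w.1 u = 0) ∧
    (∀ k ∈ J1, ∑ u ∈ m, C k u * (w.1 u + w.2 k) + ∑ l, R k l * (w.2 l + w.2 k) + g k * w.2 k = 0)}
  add_mem' := by
    rintro x y ⟨⟨h1, h2, h3⟩, h4, h5⟩ ⟨⟨k1, k2, k3⟩, k4, k5⟩
    refine ⟨⟨fun u hu => ?_, fun u hu => ?_, fun u hu => ?_⟩, fun u hu hm => ?_, fun k hk => ?_⟩
    · rw [Prod.fst_add, Pi.add_apply, h1 u hu, k1 u hu, add_zero]
    · rw [Prod.fst_add, Pi.add_apply, h2 u hu, k2 u hu, add_zero]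
    · rw [Prod.snd_add, Pi.add_apply, h3 u hu, k3 u hu, add_zero]
    · have e1 := h4 u hu hm
      have e2 := k4 u hu hm
      have e3 : ∑ v ∈ m, A u v * ((x + y).1 v + (x + y).1 u) =
          ∑ v ∈ m, A u v * (x.1 v + x.1 u) + ∑ v ∈ m, A u v * (y.1 v + y.1 u) := by
        rw [← sum_add_distrib]
        refine sum_congr rfl fun q _ => ?_
        simp only [Prod.fst_add, Pi.add_apply]
        ring
      have e4 : ∑ l, B u l * ((x + y).2 l + (x + y).1 u) =
          ∑ l, B u l * (x.2 l + x.1 u) + ∑ l, B u l * (y.2 l + y.1 u) := by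
        rw [← sum_add_distrib]
        refine sum_congr rfl fun q _ => ?_
        simp only [Prod.fst_add, Prod.snd_add, Pi.add_apply]
        ring
      rw [e3, e4]
      simp only [Prod.fst_add, Pi.add_apply]
      linear_combination e1 + e2
    · have e1 := h5 k hk
      have e2 := k5 k hk
      have e3 : ∑ u ∈ m, C k u * ((x + y).1 u + (x + y).2 k) =
          ∑ u ∈ m, C k u * (x.1 u + x.2 k) + ∑ u ∈ m, C k u * (y.1 u + y.2 k) := by
        rw [← sum_add_distrib]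
        refine sum_congr rfl fun q _ => ?_
        simp only [Prod.fst_add, Prod.snd_add, Pi.add_apply]
        ring
      have e4 : ∑ l, R k l * ((x + y).2 l + (x + y).2 k) =
          ∑ l, R k l * (x.2 l + x.2 k) + ∑ l, R k l * (y.2 l + y.2 k) := by
        rw [← sum_add_distrib]
        refine sum_congr rfl fun q _ => ?_
        simp only [Prod.snd_add, Pi.add_apply]
        ring
      rw [e3, e4]
      simp only [Prod.snd_add, Pi.add_apply]
      linear_combination e1 + e2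
  zero_mem' := by
    refine ⟨⟨fun _ _ => rfl, fun _ _ => rfl, fun _ _ => rfl⟩, fun u _ _ => ?_, fun k _ => ?_⟩
    · simp only [Prod.fst_zero, Prod.snd_zero, Pi.zero_apply, add_zero, mul_zero, sum_const_zero]
    · simp only [Prod.fst_zero, Prod.snd_zero, Pi.zero_apply, add_zero, mul_zero, sum_const_zero]
  smul_mem' := by
    rintro c x ⟨⟨h1, h2, h3⟩, h4, h5⟩
    refine ⟨⟨fun u hu => ?_, fun u hu => ?_, fun u hu => ?_⟩, fun u hu hm => ?_, fun k hk => ?_⟩
    · rw [Prod.smul_fst, Pi.smul_apply, h1 u hu, smul_zero]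
    · rw [Prod.smul_fst, Pi.smul_apply, h2 u hu, smul_zero]
    · rw [Prod.smul_snd, Pi.smul_apply, h3 u hu, smul_zero]
    · have e1 := h4 u hu hm
      have e3 : ∑ v ∈ m, A u v * ((c • x).1 v + (c • x).1 u) =
          c * ∑ v ∈ m, A u v * (x.1 v + x.1 u) := by
        rw [mul_sum]
        refine sum_congr rfl fun q _ => ?_
        simp only [Prod.smul_fst, Pi.smul_apply, smul_eq_mul]
        ring
      have e4 : ∑ l, B u l * ((c • x).2 l + (c • x).1 u) =
          c * ∑ l, B u l * (x.2 l + x.1 u) := by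
        rw [mul_sum]
        refine sum_congr rfl fun q _ => ?_
        simp only [Prod.smul_fst, Prod.smul_snd, Pi.smul_apply, smul_eq_mul]
        ring
      rw [e3, e4]
      simp only [Prod.smul_fst, Pi.smul_apply, smul_eq_mul]
      linear_combination c * e1
    · have e1 := h5 k hk
      have e3 : ∑ u ∈ m, C k u * ((c • x).1 u + (c • x).2 k) =
          c * ∑ u ∈ m, C k u * (x.1 u + x.2 k) := by
        rw [mul_sum]
        refine sum_congr rfl fun q _ => ?_
        simp only [Prod.smul_fst, Prod.smul_snd, Pi.smul_apply, smul_eq_mul]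
        ring
      have e4 : ∑ l, R k l * ((c • x).2 l + (c • x).2 k) =
          c * ∑ l, R k l * (x.2 l + x.2 k) := by
        rw [mul_sum]
        refine sum_congr rfl fun q _ => ?_
        simp only [Prod.smul_snd, Pi.smul_apply, smul_eq_mul]
        ring
      rw [e3, e4]
      simp only [Prod.smul_snd, Pi.smul_apply, smul_eq_mul]
      linear_combination c * e1

theorem mem_KM {U J : Type} [Fintype U] [Fintype J] {m U1 : Finset U} {J1 : Finset J}
    {A : U → U → ZMod 2} {B : U → J → ZMod 2} {C : J → U → ZMod 2} {R : J → J → ZMod 2}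
    {f : U → ZMod 2} {g : J → ZMod 2} {w : (U → ZMod 2) × (J → ZMod 2)} :
    w ∈ KM m U1 J1 A B C R f g ↔
    ((∀ u, u ∉ U1 → w.1 u = 0) ∧ (∀ u, u ∉ m → w.1 u = 0) ∧ (∀ k, k ∉ J1 → w.2 k = 0)) ∧
    (∀ u ∈ U1, u ∈ m →
      ∑ v ∈ m, A u v * (w.1 v + w.1 u) + ∑ l, B u l * (w.2 l + w.1 u) + f u * w.1 u = 0) ∧
    (∀ k ∈ J1, ∑ u ∈ m, C k u * (w.1 u + w.2 k) + ∑ l, R k l * (w.2 l + w.2 k) + g k * w.2 k = 0) :=
  Iff.rfl

end Q283.GM
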