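import Pool.Agent.H68.L.R_pool_sql_team_seeded_3997aac3.Q283.GM.RC

/-!
# The lower bound for the size of the family (after `Pool.Agent.Y302.CQ.LOW`)
-/

set_option autoImplicit false

open scoped Classical

namespace Q283.GM

open Finset Filter
open Pool.Agent.Y302.CQ (M1 P2 exists_root log_le_two_sqrt G1_lower)

theorem mem_M1 {w : ℕ → Prop} {y : ℕ} {S : Finset ℕ} (h : S ∈ M1 w y) :
    (∀ p ∈ S, p.Prime ∧ w p ∧ p ≤ y) ∧ ∏ p ∈ S, p ≤ y := by
  rw [M1, mem_filter, mem_powerset] at h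
  refine ⟨fun p hp => ?_, h.2⟩
  have := h.1 hp
  rw [mem_filter, mem_range] at this
  exact ⟨this.2.1, this.2.2, by omega⟩

/-- the pairs -/
noncomputable def DD (Φ : Fam) (m X y : ℕ) : Finset (Σ _ : Finset ℕ, ℕ) :=
  (M1 Φ.P y).sigma fun T => (range (X / (∏ p ∈ T, p) + 1)).filter
    fun r => y < r ∧ r.Prime ∧ r % m = 1 % m

theorem card_DD_le (Φ : Fam) {m : ℕ} (h1 : ∀ r : ℕ, r.Prime → r % m = 1 % m → Φ.P r) (X y : ℕ) :
    (DD Φ m X y).card ≤ (SS Φ X).card := by
  refine Finset.card_le_card_of_injOn (fun t => insert t.2 t.1) ?_ ?_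
  · rintro ⟨T, r⟩ ht
    rw [mem_coe, DD, mem_sigma, mem_filter, mem_range] at ht
    obtain ⟨hT, hr, hry, hrp, hrm⟩ := ht
    obtain ⟨k1, k2⟩ := mem_M1 hT
    simp only at hr hry hrp hrm
    have hrT : r ∉ T := fun h => by have := (k1 r h).2.2; omega
    have k6 : 0 < ∏ p ∈ T, p := prod_pos fun p hp => (k1 p hp).1.pos
    have hprod : r * ∏ p ∈ T, p ≤ X := by
      have : r ≤ X / ∏ p ∈ T, p := by omega
      exact (Nat.le_div_iff_mul_le k6).mp this
    have hprod' : ∏ p ∈ insert r T, p ≤ X := by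
      rw [Finset.prod_insert hrT]
      exact hprod
    have hall : ∀ p ∈ insert r T, Φ.P p := by
      intro p hp
      rcases mem_insert.mp hp with rfl | hp
      · exact h1 _ hrp hrm
      · exact (k1 p hp).2.1
    rw [mem_coe, SS, mem_filter, mem_powerset]
    refine ⟨?_, hall, hprod'⟩
    intro p hp
    rw [mem_range]
    have h3 : p ∣ ∏ q ∈ insert r T, q := Finset.dvd_prod_of_mem _ hp
    have h4 : 0 < ∏ q ∈ insert r T, q := Finset.prod_pos fun q hq => (hall q hq).prime.pos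
    have := Nat.le_of_dvd h4 h3
    omega
  · rintro ⟨T, r⟩ ht ⟨T', r'⟩ ht' he
    rw [mem_coe, DD, mem_sigma, mem_filter, mem_range] at ht ht'
    obtain ⟨hT, hr, hry, hrp, hrm⟩ := ht
    obtain ⟨hT', hr', hry', hrp', hrm'⟩ := ht'
    obtain ⟨k1, k2⟩ := mem_M1 hT
    obtain ⟨k1', k2'⟩ := mem_M1 hT'
    simp only at hr hry hrp hrm hr' hry' hrp' hrm' he k1 k1'
    have hrr : r = r' := by
      have : r ∈ insert r' T' := by rw [← he]; exact mem_insert_self _ _
      rw [mem_insert] at this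
      rcases this with h | h
      · exact h
      · have := (k1' r h).2.2
        omega
    subst hrr
    have hTT : T = T' := by
      have e1 : ∀ (S : Finset ℕ), (∀ p ∈ S, p ≤ y) →
          (insert r S).filter (fun p => p ≤ y) = S := by
        intro S hS
        ext p
        simp only [mem_filter, mem_insert]
        constructor
        · rintro ⟨rfl | h, h3⟩
          · omega
          · exact h
        · intro h; exact ⟨Or.inr h, hS p h⟩
      rw [← e1 T fun p hp => (k1 p hp).2.2, he, e1 T' fun p hp => (k1' p hp).2.2]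
    subst hTT
    rfl

theorem low_gen (Φ : Fam) {m : ℕ} (hm : 0 < m) (h1 : ∀ r : ℕ, r.Prime → r % m = 1 % m → Φ.P r)
    {δ C : ℝ} (hδ0 : 0 ≤ δ) (hδ1 : δ ≤ 1)
    (hC : ∀ y : ℕ, 3 ≤ y → ∑ p ∈ P2 Φ.P y, (1 : ℝ) / p ≤ (1 - δ) * Real.log (Real.log y) + C) :
    ∃ (c : ℝ) (X₀ : ℕ), 0 < c ∧ ∀ X : ℕ, X₀ ≤ X →
      c * X * (Real.log X) ^ (-1 + δ : ℝ) ≤ ((SS Φ X).card : ℝ) := by
  obtain ⟨c, Y₀, hc, hche⟩ := che m hm
  obtain ⟨y₀, hy₀⟩ : ∃ y₀ : ℕ, y₀ = max (max 5 Y₀) ⌈8 / c⌉₊ := ⟨_, rfl⟩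
  refine ⟨c / 4 * (1 / 2 * Real.exp (-C)) / 16, y₀ ^ 8, by positivity, ?_⟩
  intro X hX
  obtain ⟨y, hy1, hy2⟩ := exists_root X
  have hyy : y₀ ≤ y := by
    have : y₀ ^ 8 < (y + 1) ^ 8 := lt_of_le_of_lt hX hy2
    have := lt_of_pow_lt_pow_left₀ 8 (Nat.zero_le _) this
    omega
  have hy5 : 5 ≤ y := by
    have : 5 ≤ y₀ := by rw [hy₀]; exact (le_max_left _ _).trans (le_max_left _ _)
    omega
  have hyY : Y₀ ≤ y := by
    have : Y₀ ≤ y₀ := by rw [hy₀]; exact (le_max_right _ _).trans (le_max_left _ _)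
    omega
  have hyc : 8 / c ≤ (y : ℝ) := by
    have h1 : 8 / c ≤ (⌈8 / c⌉₊ : ℝ) := Nat.le_ceil _
    have h2 : ⌈8 / c⌉₊ ≤ y := by
      have : ⌈8 / c⌉₊ ≤ y₀ := by rw [hy₀]; exact le_max_right _ _
      omega
    exact h1.trans (by exact_mod_cast h2)
  have hyR : (5 : ℝ) ≤ y := by exact_mod_cast hy5
  have hyX : y < X := by
    have : y < y ^ 8 := by
      calc y = y ^ 1 := (pow_one y).symm
        _ < y ^ 8 := Nat.pow_lt_pow_right (by omega) (by norm_num)
    omega
  have hX1 : (1 : ℝ) < X := by exact_mod_cast (show 1 < X by omega)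
  have hlogy : 0 < Real.log y := Real.log_pos (by linarith)
  have hlogX : 0 < Real.log X := Real.log_pos hX1
  have hlog16 : Real.log X ≤ 16 * Real.log y := by
    have h1 : X ≤ y ^ 16 := by
      have h2 : y + 1 ≤ y ^ 2 := by nlinarith
      calc X ≤ (y + 1) ^ 8 := hy2.le
        _ ≤ (y ^ 2) ^ 8 := Nat.pow_le_pow_left h2 8
        _ = y ^ 16 := by ring
    have : Real.log X ≤ Real.log ((y : ℝ) ^ 16) := by
      apply Real.log_le_log (by linarith)
      exact_mod_cast h1
    rwa [Real.log_pow] at this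
  -- the sum
  have hsum : ∑ T ∈ M1 Φ.P y, c / 4 * (X / Real.log X) *
      ((1 : ℝ) / ((∏ p ∈ T, p : ℕ) : ℝ)) ≤ ((DD Φ m X y).card : ℝ) := by
    rw [DD, Finset.card_sigma, Nat.cast_sum]
    refine Finset.sum_le_sum fun T hT => ?_
    obtain ⟨h1, h2⟩ := mem_M1 hT
    obtain ⟨n, hn⟩ : ∃ n, n = ∏ p ∈ T, p := ⟨_, rfl⟩
    rw [← hn] at h2
    rw [← hn]
    have hn0 : 0 < n := by
      rw [hn]; exact Finset.prod_pos fun p hp => (h1 p hp).1.pos
    obtain ⟨Y, hYdef⟩ : ∃ Y, Y = X / n := ⟨_, rfl⟩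
    have hYy : y ^ 6 ≤ Y := by
      rw [hYdef, Nat.le_div_iff_mul_le hn0]
      calc y ^ 6 * n ≤ y ^ 6 * y ^ 2 := by
            apply Nat.mul_le_mul_left
            nlinarith
        _ = y ^ 8 := by ring
        _ ≤ X := hy1
    have hy6 : y ≤ y ^ 6 := Nat.le_self_pow (by norm_num) y
    have hY0 : Y₀ ≤ Y := by omega
    have hYX : Y ≤ X := by rw [hYdef]; exact Nat.div_le_self _ _
    have hY1 : (1 : ℝ) < (Y : ℝ) := by exact_mod_cast (show 1 < Y by omega)
    have hlY : 0 < Real.log (Y : ℝ) := Real.log_pos hY1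
    have hlYX : Real.log (Y : ℝ) ≤ Real.log X :=
      Real.log_le_log (by linarith) (by exact_mod_cast hYX)
    have h3 := hche Y hY0
    -- discard the small primes
    have h4 : ((range (Y + 1)).filter fun p => p.Prime ∧ p % m = 1 % m).card ≤
        ((range (Y + 1)).filter fun r => y < r ∧ r.Prime ∧ r % m = 1 % m).card + (y + 1) := by
      have h5 : ((range (Y + 1)).filter fun p => p.Prime ∧ p % m = 1 % m) ⊆
          ((range (Y + 1)).filter fun r => y < r ∧ r.Prime ∧ r % m = 1 % m) ∪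
            range (y + 1) := by
        intro p hp
        rw [mem_filter] at hp
        rw [mem_union, mem_filter, mem_range]
        by_cases h : y < p
        · exact Or.inl ⟨mem_range.mp hp.1, h, hp.2⟩
        · right
          rw [mem_range]
          omega
      refine (Finset.card_le_card h5).trans ((Finset.card_union_le _ _).trans ?_)
      rw [Finset.card_range]
    have h4' : (((range (Y + 1)).filter fun p => p.Prime ∧ p % m = 1 % m).card : ℝ) ≤
        (((range (Y + 1)).filter fun r => y < r ∧ r.Prime ∧ r % m = 1 % m).card : ℝ) +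
          ((y : ℝ) + 1) := by
      exact_mod_cast h4
    have h6 : (y : ℝ) + 1 ≤ c / 2 * (Y / Real.log Y) := by
      have hs0 : 0 < Real.sqrt (Y : ℝ) := Real.sqrt_pos.mpr (by linarith)
      have hs1 : (y : ℝ) ^ 3 ≤ Real.sqrt (Y : ℝ) := by
        apply Real.le_sqrt_of_sq_le
        have : ((y : ℝ) ^ 3) ^ 2 = (y : ℝ) ^ 6 := by ring
        rw [this]
        exact_mod_cast hYy
      have hs2 : Real.sqrt (Y : ℝ) / 2 ≤ Y / Real.log Y := by
        rw [le_div_iff₀ hlY]
        have h7 := log_le_two_sqrt (show (0 : ℝ) < Y by linarith)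
        calc Real.sqrt (Y : ℝ) / 2 * Real.log Y ≤ Real.sqrt (Y : ℝ) / 2 * (2 * Real.sqrt Y) :=
              mul_le_mul_of_nonneg_left h7 (by positivity)
          _ = Real.sqrt (Y : ℝ) * Real.sqrt Y := by ring
          _ = Y := Real.mul_self_sqrt (by linarith)
      have hs3 : 8 ≤ c * (y : ℝ) := by
        rw [div_le_iff₀ hc] at hyc
        linarith
      calc (y : ℝ) + 1 ≤ 8 / 4 * (y * 1) := by linarith
        _ ≤ c * y / 4 * (y * y) := by
            apply mul_le_mul _ _ (by positivity) (by positivity)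
            · exact div_le_div_of_nonneg_right hs3 (by norm_num)
            · apply mul_le_mul_of_nonneg_left _ (by positivity)
              linarith
        _ = c / 2 * ((y : ℝ) ^ 3 / 2) := by ring
        _ ≤ c / 2 * (Real.sqrt Y / 2) := by
            apply mul_le_mul_of_nonneg_left _ (by positivity)
            exact div_le_div_of_nonneg_right hs1 (by norm_num)
        _ ≤ c / 2 * (Y / Real.log Y) := mul_le_mul_of_nonneg_left hs2 (by positivity)
    have h7 : c / 2 * (Y / Real.log Y) ≤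
        (((range (Y + 1)).filter fun r => y < r ∧ r.Prime ∧ r % m = 1 % m).card : ℝ) := by
      have h8 : c * Y / Real.log Y = c / 2 * (Y / Real.log Y) + c / 2 * (Y / Real.log Y) := by ring
      rw [h8] at h3
      linarith
    rw [← hYdef]
    refine le_trans ?_ h7
    have hhalf : (X : ℝ) / (2 * n) ≤ (Y : ℝ) := by
      have h9 : X < n * Y + n := by
        rw [hYdef]
        have := Nat.div_add_mod X n
        have := Nat.mod_lt X hn0
        omega
      have h10 : (X : ℝ) < n * (Y : ℝ) + n := by exact_mod_cast h9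
      have hm' : (0 : ℝ) < n := by exact_mod_cast hn0
      rw [div_le_iff₀ (by positivity)]
      nlinarith
    have hn' : (0 : ℝ) < n := by exact_mod_cast hn0
    calc c / 4 * (X / Real.log X) * ((1 : ℝ) / (n : ℝ)) =
        c / 2 * (((X : ℝ) / (2 * n)) / Real.log X) := by
          field_simp
          ring
      _ ≤ c / 2 * ((Y : ℝ) / Real.log X) := by
          apply mul_le_mul_of_nonneg_left _ (by positivity)
          exact div_le_div_of_nonneg_right hhalf hlogX.le
      _ ≤ c / 2 * ((Y : ℝ) / Real.log Y) := by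
          apply mul_le_mul_of_nonneg_left _ (by positivity)
          apply div_le_div_of_nonneg_left (by positivity) hlY hlYX
  rw [← Finset.mul_sum] at hsum
  have hG := G1_lower Φ.P (1 - δ) C y (by omega) (hC y (by omega))
  have hdl : 1 - (1 - δ) = δ := by ring
  rw [hdl] at hG
  have hcard : ((DD Φ m X y).card : ℝ) ≤ ((SS Φ X).card : ℝ) := by
    exact_mod_cast card_DD_le Φ h1 X y
  refine le_trans ?_ (hsum.trans hcard)
  have h6 : 0 ≤ c / 4 * (X / Real.log X) := by positivity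
  refine le_trans ?_ (mul_le_mul_of_nonneg_left hG h6)
  have h7 : (Real.log X) ^ δ ≤ 16 * (Real.log y) ^ δ := by
    have h8 : (Real.log X) ^ δ ≤ (16 * Real.log y) ^ δ :=
      Real.rpow_le_rpow hlogX.le hlog16 hδ0
    rw [Real.mul_rpow (by norm_num) hlogy.le] at h8
    refine h8.trans ?_
    apply mul_le_mul_of_nonneg_right _ (by positivity)
    calc (16 : ℝ) ^ δ ≤ 16 ^ (1 : ℝ) := Real.rpow_le_rpow_of_exponent_le (by norm_num) hδ1
      _ = 16 := Real.rpow_one _
  have h10 : (Real.log X) ^ (-1 + δ : ℝ) = (Real.log X) ^ δ / Real.log X := by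
    rw [Real.rpow_add hlogX, Real.rpow_neg_one]
    ring
  rw [h10]
  have hee : 0 < Real.exp (-C) := Real.exp_pos _
  calc c / 4 * (1 / 2 * Real.exp (-C)) / 16 * X * ((Real.log X) ^ δ / Real.log X)
      = c / 4 * (X / Real.log X) * (1 / 2 * Real.exp (-C) / 16 * (Real.log X) ^ δ) := by
        ring
    _ ≤ c / 4 * (X / Real.log X) *
        (1 / 2 * Real.exp (-C) / 16 * (16 * (Real.log y) ^ δ)) := by
        apply mul_le_mul_of_nonneg_left _ h6
        apply mul_le_mul_of_nonneg_left h7 (by positivity)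
    _ = c / 4 * (X / Real.log X) * (1 / 2 * Real.exp (-C) * (Real.log y) ^ δ) := by ring

theorem RC.low (ρ : RC) : ∃ (c : ℝ) (X₀ : ℕ), 0 < c ∧ ∀ X : ℕ, X₀ ≤ X →
    c * X * (Real.log X) ^ (-1 + ρ.δ : ℝ) ≤ ((SS ρ.Φ X).card : ℝ) := by
  obtain ⟨C, hC⟩ := ρ.mert
  refine low_gen ρ.Φ ρ.pos (fun r hr h => ?_) ρ.δ_pos.le ρ.δ_le hC
  rw [ρ.P_iff]
  have h1 : 1 % ρ.m = 1 := Nat.mod_eq_of_lt (ρ.hA 1 ρ.h1).1
  exact ⟨hr, by rw [h, h1]; exact mem_union_left _ ρ.h1⟩

end Q283.GM
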