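import Pool.Agent.H68.L.R_pool_sql_team_seeded_3997aac3.Q283.GM.LF

/-!
# The primes modulo `m` on which a product is a square
-/

set_option autoImplicit false

open scoped Classical

namespace Q283.GM

open Finset Filter
open Pool.Agent.Y475.CQ (pow_small leg)
open Pool.Agent.Y703.CQ (nr)

/-- the Jacobi symbol modulo `M` -/
noncomputable def cJ (M : ℕ) : ℕ →* ℂ where
  toFun n := ((jacobiSym (n : ℤ) M : ℤ) : ℂ)
  map_one' := by simp
  map_mul' m n := by push_cast; rw [jacobiSym.mul_left]; push_cast; rfl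

theorem cJ_apply (M n : ℕ) : cJ M n = ((jacobiSym (n : ℤ) M : ℤ) : ℂ) := rfl

theorem cJ_norm (M n : ℕ) : ‖cJ M n‖ ≤ 1 := by
  rw [cJ_apply]
  rcases jacobiSym.trichotomy (n : ℤ) M with h | h | h <;> rw [h] <;> simp

theorem cJ_mod (M a b : ℕ) (h : a ≡ b [MOD M]) : cJ M a = cJ M b := by
  rw [cJ_apply, cJ_apply, jacobiSym.mod_left' (b := M) (by
    have := (Int.natCast_modEq_iff).2 h
    exact this)]

/-- a character as a function on the natural numbers -/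
noncomputable def cD {m : ℕ} (ψ : DirichletCharacter ℂ m) : ℕ →* ℂ where
  toFun n := ψ (n : ZMod m)
  map_one' := by rw [Nat.cast_one, map_one]
  map_mul' a b := by rw [Nat.cast_mul, map_mul]

theorem cD_apply {m : ℕ} (ψ : DirichletCharacter ℂ m) (n : ℕ) : cD ψ n = ψ (n : ZMod m) := rfl

/-- a number congruent to one modulo `m` which is a nonresidue modulo the product of the primes -/
theorem exK (m : ℕ) (W : Finset ℕ) (hW : W.Nonempty)
    (hp : ∀ u ∈ W, u.Prime ∧ u ≠ 2 ∧ u.Coprime m) :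
    ∃ k : ℕ, k ≡ 1 [MOD m] ∧ Nat.Coprime k (∏ u ∈ W, u) ∧ jacobiSym (k : ℤ) (∏ u ∈ W, u) = -1 := by
  obtain ⟨v, hv⟩ := hW
  have hvp := (hp v hv).1
  have hvf : Fact v.Prime := ⟨hvp⟩
  have hv2 : v ≠ 2 := (hp v hv).2.1
  obtain ⟨g, hg⟩ := FiniteField.exists_nonsquare (F := ZMod v) (by rw [ZMod.ringChar_zmod_n]; exact hv2)
  set Q := ∏ u ∈ W.erase v, u with hQ
  have hM : ∏ u ∈ W, u = v * Q := (mul_prod_erase W (fun u => u) hv).symm
  have hcop : Nat.Coprime v (m * Q) := by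
    refine Nat.Coprime.mul_right (hp v hv).2.2 ?_
    rw [Nat.coprime_prod_right_iff]
    intro u hu
    exact (Nat.coprime_primes hvp (hp u (mem_of_mem_erase hu)).1).2 (ne_of_mem_erase hu).symm
  obtain ⟨k, hk1, hk2⟩ := Nat.chineseRemainder hcop g.val 1
  have hkm : k ≡ 1 [MOD m] := hk2.of_dvd (dvd_mul_right _ _)
  have hkQ : k ≡ 1 [MOD Q] := hk2.of_dvd (dvd_mul_left _ _)
  have hkv : ((k : ℕ) : ZMod v) = g := by
    rw [(ZMod.natCast_eq_natCast_iff k g.val v).2 hk1, ZMod.natCast_zmod_val]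
  have hJQ : jacobiSym (k : ℤ) Q = 1 := by
    have h1 : jacobiSym (k : ℤ) Q = jacobiSym ((1 : ℕ) : ℤ) Q :=
      jacobiSym.mod_left' ((Int.natCast_modEq_iff).2 hkQ)
    rw [h1, Nat.cast_one, jacobiSym.one_left]
  have hJv : jacobiSym (k : ℤ) v = -1 := by
    rw [leg, legendreSym.eq_neg_one_iff]
    rw [Int.cast_natCast, hkv]
    exact hg
  have hQ0 : Q ≠ 0 := by
    rw [hQ, prod_ne_zero_iff]
    intro u hu
    exact (hp u (mem_of_mem_erase hu)).1.ne_zero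
  have : NeZero v := ⟨hvp.ne_zero⟩
  have : NeZero Q := ⟨hQ0⟩
  refine ⟨k, hkm, ?_, ?_⟩
  · rw [hM]
    refine Nat.Coprime.mul_right ?_ ?_
    · rw [Nat.coprime_comm, Nat.Prime.coprime_iff_not_dvd hvp]
      intro h
      rw [← ZMod.natCast_eq_zero_iff, hkv] at h
      exact hg (h ▸ IsSquare.zero)
    · have := hkQ.gcd_eq
      rw [Nat.gcd_one_left] at this
      exact this
  · rw [hM, jacobiSym.mul_right, hJv, hJQ, mul_one]

/-- the symbol of a prime -/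
theorem cJ_one (W : Finset ℕ) (hp : ∀ u ∈ W, u.Prime ∧ u % 4 = 1) {p : ℕ} (h1 : p.Prime)
    (h2 : p ≠ 2) (hpW : p ∉ W) (hs : ∑ u ∈ W, nr p u = 0) : cJ (∏ u ∈ W, u) p = 1 := by
  have hpf : Fact p.Prime := ⟨h1⟩
  rw [cJ_apply]
  have key : ∀ W' : Finset ℕ, W' ⊆ W →
      jacobiSym (p : ℤ) (∏ u ∈ W', u) = if ∑ u ∈ W', nr p u = 0 then 1 else -1 := by
    intro W'
    induction W' using Finset.induction_on with
    | empty => intro _; simp
    | insert a s ha ih =>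
      intro hs'
      have haW : a ∈ W := hs' (mem_insert_self a s)
      have ihs := ih ((subset_insert a s).trans hs')
      have hap := (hp a haW).1
      have ha8 := (hp a haW).2
      have haf : Fact a.Prime := ⟨hap⟩
      have : NeZero a := ⟨hap.ne_zero⟩
      have : NeZero (∏ u ∈ s, u) := ⟨by
        rw [prod_ne_zero_iff]
        intro u hu
        exact (hp u (hs' (mem_insert_of_mem hu))).1.ne_zero⟩
      rw [prod_insert ha, sum_insert ha, jacobiSym.mul_right, ihs]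
      have hodd : Odd p := h1.odd_of_ne_two h2
      have hrec : jacobiSym (p : ℤ) a = jacobiSym (a : ℤ) p :=
        (jacobiSym.quadratic_reciprocity_one_mod_four ha8 hodd).symm
      have hne : ((a : ℤ) : ZMod p) ≠ 0 := by
        intro h0
        rw [Int.cast_natCast, ZMod.natCast_eq_zero_iff] at h0
        have := (Nat.prime_dvd_prime_iff_eq h1 hap).1 h0
        exact hpW (this ▸ haW)
      have hval : jacobiSym (p : ℤ) a = if nr p a = 0 then 1 else -1 := by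
        rw [hrec, leg]
        unfold nr
        by_cases hsq : IsSquare (a : ZMod p)
        · rw [if_pos hsq, if_pos rfl]
          exact (legendreSym.eq_one_iff p hne).2 (by rwa [Int.cast_natCast])
        · rw [if_neg hsq, if_neg (by decide)]
          exact (legendreSym.eq_neg_one_iff p).2 (by rwa [Int.cast_natCast])
      rw [hval]
      have hz : ∀ x y : ZMod 2, (if x = 0 then (1 : ℤ) else -1) * (if y = 0 then 1 else -1) =
          if x + y = 0 then 1 else -1 := by decide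
      exact hz _ _
  rw [key W Subset.rfl, if_pos hs]
  simp

/-- the sum of `p ^ (-σ)` over the primes `1` modulo `m` on which the product is a square -/
theorem sum_sigma {m : ℕ} (hm : 0 < m) {W : Finset ℕ} (hW : W.Nonempty)
    (hp : ∀ u ∈ W, u.Prime ∧ u % 4 = 1 ∧ u.Coprime m) {σ : ℝ} (hσ : 1 < σ) (P : Finset ℕ)
    (hP : ∀ p ∈ P, p.Prime ∧ p ≠ 2 ∧ p % m = 1 % m ∧ p ∉ W ∧ ∑ u ∈ W, nr p u = 0) :
    2 * (m.totient : ℝ) * ∑ p ∈ P, (p : ℝ) ^ (-σ) ≤ Real.log (1 + 1 / (σ - 1)) +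
      2 * (m.totient : ℝ) * (Real.log (3 + Real.log ((m * ∏ u ∈ W, u : ℕ) : ℝ)) + c₂) := by
  have : NeZero m := ⟨hm.ne'⟩
  set M := ∏ u ∈ W, u with hM
  have hM0 : 0 < M := prod_pos fun u hu => (hp u hu).1.pos
  have hφ : (0 : ℝ) < (m.totient : ℝ) := by exact_mod_cast Nat.totient_pos.2 hm
  have hb0 : ∀ (ψ : DirichletCharacter ℂ m) (n : ℕ), ‖cD ψ n‖ ≤ 1 := fun ψ n =>
    ψ.norm_le_one _
  have hb1 : ∀ (ψ : DirichletCharacter ℂ m) (n : ℕ), ‖(cD ψ * cJ M) n‖ ≤ 1 := by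
    intro ψ n
    rw [MonoidHom.mul_apply, norm_mul]
    exact mul_le_one₀ (hb0 ψ n) (norm_nonneg _) (cJ_norm M n)
  have hq : (1 : ℝ) ≤ ((m * M : ℕ) : ℝ) := by exact_mod_cast Nat.mul_pos hm hM0
  have hlq : 0 ≤ Real.log ((m * M : ℕ) : ℝ) := Real.log_nonneg hq
  -- the bounds
  have hper0 : ∀ (ψ : DirichletCharacter ℂ m), CM (cD ψ) m := by
    intro ψ
    refine ⟨hm, hb0 ψ, fun n => ?_⟩
    rw [cD_apply, cD_apply, Nat.cast_add, ZMod.natCast_self, zero_add]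
  have hper1 : ∀ (ψ : DirichletCharacter ℂ m), CM (cD ψ * cJ M) (m * M) := by
    intro ψ
    refine ⟨Nat.mul_pos hm hM0, hb1 ψ, fun n => ?_⟩
    rw [MonoidHom.mul_apply, MonoidHom.mul_apply, cD_apply, cD_apply]
    congr 1
    · rw [Nat.cast_add, Nat.cast_mul, ZMod.natCast_self, zero_mul, zero_add]
    · refine cJ_mod M _ _ ?_
      show (m * M + n) % M = n % M
      rw [mul_comm m M, Nat.mul_add_mod]
  have hB1 : ∀ (ψ : DirichletCharacter ℂ m),
      Real.log ‖∑' n, fF (cD ψ * cJ M) σ hσ n‖ ≤ Real.log (3 + Real.log ((m * M : ℕ) : ℝ)) := by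
    intro ψ
    obtain ⟨k, hk1, hk2, hk3⟩ := exK m W hW fun u hu => ⟨(hp u hu).1, by
      rintro rfl
      have := (hp 2 hu).2.1
      omega, (hp u hu).2.2⟩
    have hkm : Nat.Coprime k m := by
      have := hk1.gcd_eq
      rw [Nat.gcd_one_left] at this
      exact this
    refine Real.log_le_log (euler_le (hb1 ψ) hσ).1 ((hper1 ψ).L_le ((hper1 ψ).sum_zero
      (Nat.Coprime.mul_right hkm hk2) ?_) hσ)
    rw [MonoidHom.mul_apply, cD_apply, (ZMod.natCast_eq_natCast_iff k 1 m).2 hk1, Nat.cast_one,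
      map_one, cJ_apply, hk3]
    norm_num
  have hB0 : ∀ (ψ : DirichletCharacter ℂ m), ψ ≠ 1 →
      Real.log ‖∑' n, fF (cD ψ) σ hσ n‖ ≤ Real.log (3 + Real.log ((m * M : ℕ) : ℝ)) := by
    intro ψ hψ
    obtain ⟨a, ha⟩ := MulChar.ne_one_iff.1 hψ
    refine Real.log_le_log (euler_le (hb0 ψ) hσ).1 (((hper0 ψ).L_le ((hper0 ψ).sum_zero
      (k := (a : ZMod m).val) (ZMod.val_coe_unit_coprime a) ?_) hσ).trans ?_)
    · rw [cD_apply, ZMod.natCast_zmod_val]
      exact ha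
    · have h1 : Real.log (m : ℝ) ≤ Real.log ((m * M : ℕ) : ℝ) := by
        refine Real.log_le_log (by exact_mod_cast hm) ?_
        exact_mod_cast Nat.le_mul_of_pos_right m hM0
      linarith
  have hB : Real.log ‖∑' n, fF (cD (1 : DirichletCharacter ℂ m)) σ hσ n‖ ≤
      Real.log (1 + 1 / (σ - 1)) :=
    Real.log_le_log (euler_le (hb0 1) hσ).1 (L_le' (hb0 1) hσ)
  set B := Real.log (3 + Real.log ((m * M : ℕ) : ℝ)) with hBd
  have hB00 : 0 ≤ B := Real.log_nonneg (by linarith)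
  have hσ0 : 0 < σ - 1 := by linarith
  have hZ0 : 0 ≤ Real.log (1 + 1 / (σ - 1)) := Real.log_nonneg (by
    have : 0 < 1 / (σ - 1) := by positivity
    linarith)
  -- the characters
  have hchar : ∀ p : ℕ, ∑ ψ : DirichletCharacter ℂ m, ((cD ψ p).re + ((cD ψ * cJ M) p).re) =
      (if (p : ZMod m) = 1 then (m.totient : ℝ) else 0) * (1 + ((jacobiSym (p : ℤ) M : ℤ) : ℝ)) := by
    intro p
    have h1 := DirichletCharacter.sum_characters_eq ℂ (n := m) (p : ZMod m)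
    have h2 : ∑ ψ : DirichletCharacter ℂ m, (cD ψ p).re =
        if (p : ZMod m) = 1 then (m.totient : ℝ) else 0 := by
      have h3 := congrArg Complex.re h1
      rw [Complex.re_sum] at h3
      refine Eq.trans h3 ?_
      split_ifs
      · exact Complex.natCast_re _
      · exact Complex.zero_re
    have h4 : ∀ ψ : DirichletCharacter ℂ m, ((cD ψ * cJ M) p).re =
        (cD ψ p).re * ((jacobiSym (p : ℤ) M : ℤ) : ℝ) := by
      intro ψ
      rw [MonoidHom.mul_apply, cJ_apply]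
      have : (((jacobiSym (p : ℤ) M : ℤ) : ℂ)) = ((((jacobiSym (p : ℤ) M : ℤ) : ℝ)) : ℂ) := by
        push_cast
        rfl
      rw [this, Complex.re_mul_ofReal]
    rw [sum_add_distrib, h2, sum_congr rfl fun ψ _ => h4 ψ, ← sum_mul, h2]
    ring
  have hs0 : ∀ ψ : DirichletCharacter ℂ m,
      Summable fun p : Nat.Primes => (cD ψ p).re * ((p : ℕ) : ℝ) ^ (-σ) := fun ψ =>
    summ_re (hb0 ψ) hσ
  have hs1 : ∀ ψ : DirichletCharacter ℂ m,
      Summable fun p : Nat.Primes => ((cD ψ * cJ M) p).re * ((p : ℕ) : ℝ) ^ (-σ) := fun ψ =>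
    summ_re (hb1 ψ) hσ
  set g : Nat.Primes → ℝ := fun p => (∑ ψ : DirichletCharacter ℂ m,
    ((cD ψ p).re + ((cD ψ * cJ M) p).re)) * ((p : ℕ) : ℝ) ^ (-σ) with hg
  have hg' : ∀ p : Nat.Primes, g p = ∑ ψ : DirichletCharacter ℂ m,
      ((cD ψ p).re * ((p : ℕ) : ℝ) ^ (-σ) + ((cD ψ * cJ M) p).re * ((p : ℕ) : ℝ) ^ (-σ)) := by
    intro p
    simp only [hg]
    rw [sum_mul]
    exact sum_congr rfl fun ψ _ => by ring
  have hgs : Summable g := by
    have : Summable fun p : Nat.Primes => ∑ ψ : DirichletCharacter ℂ m,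
        ((cD ψ p).re * ((p : ℕ) : ℝ) ^ (-σ) + ((cD ψ * cJ M) p).re * ((p : ℕ) : ℝ) ^ (-σ)) :=
      summable_sum fun ψ _ => (hs0 ψ).add (hs1 ψ)
    exact this.congr fun p => (hg' p).symm
  have hg0 : ∀ p, 0 ≤ g p := by
    intro p
    simp only [hg]
    rw [hchar]
    have h1 : (-1 : ℝ) ≤ ((jacobiSym ((p : ℕ) : ℤ) M : ℤ) : ℝ) := by
      rcases jacobiSym.trichotomy ((p : ℕ) : ℤ) M with h | h | h <;> rw [h] <;> norm_num
    have h2 : 0 ≤ ((p : ℕ) : ℝ) ^ (-σ) := Real.rpow_nonneg (Nat.cast_nonneg _) _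
    refine mul_nonneg (mul_nonneg ?_ (by linarith)) h2
    split_ifs
    · exact hφ.le
    · exact le_rfl
  -- the finite sum
  obtain ⟨P', hPP⟩ : ∃ P' : Finset Nat.Primes, P' = P.subtype Nat.Prime := ⟨_, rfl⟩
  have e1 : 2 * (m.totient : ℝ) * ∑ p ∈ P, (p : ℝ) ^ (-σ) = ∑ p ∈ P', g p := by
    have e2 : ∑ p ∈ P, (p : ℝ) ^ (-σ) = ∑ p ∈ P', ((p : ℕ) : ℝ) ^ (-σ) := by
      rw [hPP]
      exact (sum_subtype_of_mem (fun p : ℕ => (p : ℝ) ^ (-σ)) fun p h => (hP p h).1).symm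
    rw [e2, mul_sum]
    refine sum_congr rfl fun p hp' => ?_
    have hpP : (p : ℕ) ∈ P := by
      rw [hPP] at hp'
      exact mem_subtype.1 hp'
    obtain ⟨k1, k2, k3, k4, k5⟩ := hP p hpP
    simp only [hg]
    rw [hchar]
    have h1 : ((p : ℕ) : ZMod m) = 1 := by
      have := (ZMod.natCast_eq_natCast_iff (p : ℕ) 1 m).2 k3
      rwa [Nat.cast_one] at this
    have h2 : ((jacobiSym ((p : ℕ) : ℤ) M : ℤ) : ℝ) = 1 := by
      have h3 := cJ_one W (fun u hu => ⟨(hp u hu).1, (hp u hu).2.1⟩) k1 k2 k4 k5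
      rw [cJ_apply] at h3
      have h4 : jacobiSym ((p : ℕ) : ℤ) M = 1 := by exact_mod_cast h3
      rw [h4]
      norm_num
    rw [if_pos h1, h2]
    ring
  rw [e1]
  refine (hgs.sum_le_tsum P' fun p _ => hg0 p).trans ?_
  rw [tsum_congr hg', Summable.tsum_finsetSum fun ψ _ => (hs0 ψ).add (hs1 ψ)]
  have h1 : ∀ ψ : DirichletCharacter ℂ m, ∑' p : Nat.Primes, ((cD ψ p).re * ((p : ℕ) : ℝ) ^ (-σ) +
      ((cD ψ * cJ M) p).re * ((p : ℕ) : ℝ) ^ (-σ)) ≤
      (if ψ = 1 then Real.log (1 + 1 / (σ - 1)) else 0) + 2 * (B + c₂) := by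
    intro ψ
    rw [(hs0 ψ).tsum_add (hs1 ψ)]
    have h2 := (euler_le (hb0 ψ) hσ).2
    have h3 := (euler_le (hb1 ψ) hσ).2
    have h4 := hB1 ψ
    by_cases hψ : ψ = 1
    · rw [if_pos hψ]
      subst hψ
      linarith
    · rw [if_neg hψ]
      have h5 := hB0 ψ hψ
      linarith
  refine (sum_le_sum fun ψ _ => h1 ψ).trans ?_
  rw [sum_add_distrib, sum_ite_eq' univ (1 : DirichletCharacter ℂ m), if_pos (mem_univ _), sum_const,
    card_univ, ← Nat.card_eq_fintype_card,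
    DirichletCharacter.card_eq_totient_of_hasEnoughRootsOfUnity ℂ m, nsmul_eq_mul]
  refine le_of_eq ?_
  ring

/-- the same for the reciprocals -/
theorem sum_recip {m : ℕ} (hm : 0 < m) : ∃ C : ℝ, ∀ (W : Finset ℕ) (y : ℕ), W.Nonempty →
    (∀ u ∈ W, u.Prime ∧ u % 4 = 1 ∧ u.Coprime m) → 3 ≤ y →
    ∑ p ∈ (range (y + 1)).filter (fun p => p.Prime ∧ p ≠ 2 ∧ p % m = 1 % m ∧ p ∉ W ∧
      ∑ u ∈ W, nr p u = 0), (1 : ℝ) / p ≤
      1 / (2 * (m.totient : ℝ)) * Real.log (Real.log y) +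
        Real.log (Real.log ((∏ u ∈ W, u : ℕ) : ℝ)) + C := by
  obtain ⟨C₁, hC₁⟩ := Pool.Agent.Erdos456.Mert.mertens_log
  have hφ : (0 : ℝ) < (m.totient : ℝ) := by exact_mod_cast Nat.totient_pos.2 hm
  refine ⟨1 / (2 * (m.totient : ℝ)) * Real.log 2 + Real.log (4 + Real.log m) + c₂ + (1 + |C₁|), ?_⟩
  intro W y hW hp hy
  have hyR : (3 : ℝ) ≤ y := by exact_mod_cast hy
  have hly : 1 < Real.log y := by
    rw [Real.lt_log_iff_exp_lt (by linarith)]
    have := Real.exp_one_lt_d9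
    linarith
  set σ : ℝ := 1 + 1 / Real.log y with hσd
  have hσ : 1 < σ := by
    rw [hσd]
    have : 0 < 1 / Real.log y := by positivity
    linarith
  set M := ∏ u ∈ W, u with hM
  have hM5 : 5 ≤ M := by
    obtain ⟨v, hv⟩ := hW
    have h1 : v ∣ M := dvd_prod_of_mem (fun u => u) hv
    have h2 : 0 < M := prod_pos fun u hu => (hp u hu).1.pos
    have h3 := (hp v hv).1.two_le
    have h4 := (hp v hv).2.1
    have h5 : 5 ≤ v := by omega
    exact h5.trans (Nat.le_of_dvd h2 h1)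
  have hlM : 1 < Real.log M := by
    have h5 : (5 : ℝ) ≤ M := by exact_mod_cast hM5
    rw [Real.lt_log_iff_exp_lt (by linarith)]
    have := Real.exp_one_lt_d9
    linarith
  obtain ⟨P, hPd⟩ : ∃ P : Finset ℕ, P = (range (y + 1)).filter (fun p => p.Prime ∧ p ≠ 2 ∧
    p % m = 1 % m ∧ p ∉ W ∧ ∑ u ∈ W, nr p u = 0) := ⟨_, rfl⟩
  rw [← hPd]
  have hP : ∀ p ∈ P, p.Prime ∧ p ≠ 2 ∧ p % m = 1 % m ∧ p ∉ W ∧ ∑ u ∈ W, nr p u = 0 := by
    intro p hp'
    rw [hPd, mem_filter] at hp'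
    exact hp'.2
  have h1 := sum_sigma hm hW hp hσ P hP
  have e1 : 1 / (σ - 1) = Real.log y := by
    rw [hσd]
    field_simp
    ring
  rw [e1] at h1
  have h2 : Real.log (1 + Real.log y) ≤ Real.log 2 + Real.log (Real.log y) := by
    rw [← Real.log_mul (by norm_num) (by linarith)]
    exact Real.log_le_log (by linarith) (by linarith)
  have hm1 : 0 ≤ Real.log (m : ℝ) := Real.log_natCast_nonneg m
  have h3 : Real.log (3 + Real.log ((m * M : ℕ) : ℝ)) ≤
      Real.log (4 + Real.log m) + Real.log (Real.log M) := by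
    have hm' : (m : ℝ) ≠ 0 := by exact_mod_cast hm.ne'
    have hM' : (M : ℝ) ≠ 0 := by exact_mod_cast (by omega : M ≠ 0)
    rw [← Real.log_mul (by linarith) (by linarith), Nat.cast_mul, Real.log_mul hm' hM']
    refine Real.log_le_log (by linarith) ?_
    nlinarith
  have h4 : ∑ p ∈ P, (p : ℝ) ^ (-σ) ≤ 1 / (2 * (m.totient : ℝ)) *
      (Real.log 2 + Real.log (Real.log y)) + (Real.log (4 + Real.log m) + Real.log (Real.log M) +
        c₂) := by
    have h5 : 2 * (m.totient : ℝ) * ∑ p ∈ P, (p : ℝ) ^ (-σ) ≤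
        (Real.log 2 + Real.log (Real.log y)) + 2 * (m.totient : ℝ) *
          (Real.log (4 + Real.log m) + Real.log (Real.log M) + c₂) := by
      refine h1.trans (add_le_add h2 (mul_le_mul_of_nonneg_left ?_ (by positivity)))
      linarith
    have h6 : 0 < 2 * (m.totient : ℝ) := by positivity
    rw [← mul_le_mul_iff_right₀ h6]
    refine h5.trans (le_of_eq ?_)
    field_simp
  have h5 : ∑ p ∈ P, (1 : ℝ) / p ≤ ∑ p ∈ P, (p : ℝ) ^ (-σ) + (1 + |C₁|) := by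
    have h6 : ∀ p ∈ P, (1 : ℝ) / p ≤ (p : ℝ) ^ (-σ) + 1 / Real.log y * (Real.log p / p) := by
      intro p hpP
      have hp1 : (1 : ℝ) < p := by exact_mod_cast (hP p hpP).1.one_lt
      have hp0 : (0 : ℝ) < p := by linarith
      have h7 : (p : ℝ) ^ (-σ) = 1 / p * Real.exp (-(Real.log p * (1 / Real.log y))) := by
        rw [hσd, show -(1 + 1 / Real.log y) = -1 + -(1 / Real.log y) by ring,
          Real.rpow_add hp0, Real.rpow_neg_one, ← one_div (p : ℝ)]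
        congr 1
        rw [Real.rpow_def_of_pos hp0]
        congr 1
        ring
      have h8 := Real.add_one_le_exp (-(Real.log p * (1 / Real.log y)))
      rw [h7]
      have h9 : 0 < 1 / (p : ℝ) := by positivity
      have h10 := mul_le_mul_of_nonneg_left h8 h9.le
      have h11 : 1 / (p : ℝ) * (-(Real.log p * (1 / Real.log y)) + 1) =
          1 / p - 1 / Real.log y * (Real.log p / p) := by ring
      rw [h11] at h10
      linarith
    refine (sum_le_sum h6).trans ?_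
    rw [sum_add_distrib, ← mul_sum]
    refine add_le_add le_rfl ?_
    have h7 : ∑ p ∈ P, Real.log p / p ≤ ∑ p ∈ (Icc 1 y).filter Nat.Prime, Real.log p / p := by
      refine sum_le_sum_of_subset_of_nonneg (fun p hpP => ?_) fun p _ _ =>
        div_nonneg (Real.log_natCast_nonneg p) (Nat.cast_nonneg p)
      have h8 := hP p hpP
      rw [hPd, mem_filter, mem_range] at hpP
      rw [mem_filter, mem_Icc]
      exact ⟨⟨h8.1.one_lt.le, by omega⟩, h8.1⟩
    have h8 := (abs_le.1 (hC₁ y (by omega))).2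
    have h9 := le_abs_self C₁
    have h10 : ∑ p ∈ P, Real.log p / p ≤ Real.log y + |C₁| := by linarith
    have h11 : 0 < 1 / Real.log y := by positivity
    refine (mul_le_mul_of_nonneg_left h10 h11.le).trans ?_
    rw [mul_add, one_div_mul_cancel (by linarith)]
    have h12 : 1 / Real.log y * |C₁| ≤ |C₁| := by
      refine mul_le_of_le_one_left (abs_nonneg _) ?_
      rw [div_le_one (by linarith)]
      exact hly.le
    linarith
  linarith

/-- **the condition on the squares** -/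
theorem RC.sq (ρ : RC) : ∃ θ C : ℝ, 0 < θ ∧ 0 ≤ C ∧ ∀ (W : Finset ℕ) (y : ℕ), W.Nonempty →
    (∀ u ∈ W, ρ.Φ.A u) → 3 ≤ y →
    ∑ p ∈ (range (y + 1)).filter (fun p => ρ.Φ.P p ∧ (ρ.Φ.A p → p ∉ W ∧ ∑ u ∈ W, nr p u = 0)),
      (1 : ℝ) / p ≤ (ρ.δ - θ) * Real.log (Real.log y) +
        C * Real.log (Real.log ((∏ u ∈ W, u : ℕ) : ℝ)) + C := by
  obtain ⟨C₁, hC₁⟩ := mer_cls ρ.pos ((ρ.𝒜 ∪ ρ.ℬ).erase 1) fun a ha => ρ.hAB a (mem_of_mem_erase ha)
  obtain ⟨C₂, hC₂⟩ := sum_recip ρ.pos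
  have hφ := ρ.phi_pos
  refine ⟨1 / (2 * (ρ.m.totient : ℝ)), max 1 (C₁ + C₂), by positivity,
    le_trans zero_le_one (le_max_left _ _), ?_⟩
  intro W y hW hA hy
  have hp : ∀ u ∈ W, u.Prime ∧ u % 4 = 1 ∧ u.Coprime ρ.m := by
    intro u hu
    have h1 := ρ.Φ.hA u (hA u hu)
    have h2 : u % ρ.m ∈ ρ.𝒜 := (hA u hu).2
    have h3 := (ρ.hA _ h2).2.1
    refine ⟨h1.1, h1.2, ?_⟩
    unfold Nat.Coprime at h3 ⊢
    rw [← Nat.gcd_rec, Nat.gcd_comm] at h3
    exact h3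
  have h1 := (abs_le.1 (hC₁ y hy)).2
  have h2 := hC₂ W y hW hp hy
  have hm1 : 1 < ρ.m := (ρ.hA 1 ρ.h1).1
  have h3 : ∑ p ∈ (range (y + 1)).filter (fun p => ρ.Φ.P p ∧
      (ρ.Φ.A p → p ∉ W ∧ ∑ u ∈ W, nr p u = 0)), (1 : ℝ) / p ≤
      ∑ p ∈ (range (y + 1)).filter (fun p => p.Prime ∧ p % ρ.m ∈ (ρ.𝒜 ∪ ρ.ℬ).erase 1),
        (1 : ℝ) / p +
      ∑ p ∈ (range (y + 1)).filter (fun p => p.Prime ∧ p ≠ 2 ∧ p % ρ.m = 1 % ρ.m ∧ p ∉ W ∧
        ∑ u ∈ W, nr p u = 0), (1 : ℝ) / p := by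
    rw [← Finset.sum_union_inter]
    refine le_trans (sum_le_sum_of_subset_of_nonneg (fun p hpp => ?_) fun p _ _ => by positivity)
      (le_add_of_nonneg_right (sum_nonneg fun p _ => by positivity))
    rw [mem_filter, ρ.P_iff] at hpp
    obtain ⟨a1, ⟨a2, a3⟩, a4⟩ := hpp
    rw [mem_union, mem_filter, mem_filter, mem_erase]
    by_cases h1 : p % ρ.m = 1
    · right
      have hAp : ρ.Φ.A p := ⟨a2, by rw [h1]; exact ρ.h1⟩
      obtain ⟨b1, b2⟩ := a4 hAp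
      refine ⟨a1, a2, ?_, ?_, b1, b2⟩
      · rintro rfl
        have := (ρ.Φ.hA 2 hAp).2
        omega
      · rw [h1, Nat.mod_eq_of_lt hm1]
    · left
      exact ⟨a1, a2, h1, a3⟩
  have h4 : (((ρ.𝒜 ∪ ρ.ℬ).erase 1).card : ℝ) / (ρ.m.totient : ℝ) =
      ρ.δ - 1 / (ρ.m.totient : ℝ) := by
    rw [card_erase_of_mem (mem_union_left _ ρ.h1), Nat.cast_sub (by
      exact Finset.card_pos.2 ⟨1, mem_union_left _ ρ.h1⟩)]
    unfold RC.δ
    push_cast
    ring
  rw [h4] at h1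
  have hM5 : 5 ≤ ∏ u ∈ W, u := by
    obtain ⟨v, hv⟩ := hW
    have h1 : v ∣ ∏ u ∈ W, u := dvd_prod_of_mem (fun u => u) hv
    have h2 : 0 < ∏ u ∈ W, u := prod_pos fun u hu => (hp u hu).1.pos
    have h3 := (hp v hv).1.two_le
    have h4 := (hp v hv).2.1
    have h5 : 5 ≤ v := by omega
    exact h5.trans (Nat.le_of_dvd h2 h1)
  have hlM : 1 < Real.log ((∏ u ∈ W, u : ℕ) : ℝ) := by
    have h5 : (5 : ℝ) ≤ ((∏ u ∈ W, u : ℕ) : ℝ) := by exact_mod_cast hM5
    rw [Real.lt_log_iff_exp_lt (by linarith)]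
    have := Real.exp_one_lt_d9
    linarith
  have hllM : 0 ≤ Real.log (Real.log ((∏ u ∈ W, u : ℕ) : ℝ)) := Real.log_nonneg hlM.le
  have h5 := le_max_right 1 (C₁ + C₂)
  have h6 := mul_le_mul_of_nonneg_right (le_max_left 1 (C₁ + C₂)) hllM
  have h7 : 1 / (ρ.m.totient : ℝ) = 2 * (1 / (2 * (ρ.m.totient : ℝ))) := by
    field_simp
  rw [h7] at h1
  have h8 : ∑ p ∈ (range (y + 1)).filter (fun p => ρ.Φ.P p ∧
      (ρ.Φ.A p → p ∉ W ∧ ∑ u ∈ W, nr p u = 0)), (1 : ℝ) / p ≤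
      (ρ.δ - 1 / (2 * (ρ.m.totient : ℝ))) * Real.log (Real.log y) +
        Real.log (Real.log ((∏ u ∈ W, u : ℕ) : ℝ)) + (C₁ + C₂) := by
    refine h3.trans ?_
    have : (ρ.δ - 1 / (2 * (ρ.m.totient : ℝ))) * Real.log (Real.log y) =
      (ρ.δ - 2 * (1 / (2 * (ρ.m.totient : ℝ)))) * Real.log (Real.log y) +
        1 / (2 * (ρ.m.totient : ℝ)) * Real.log (Real.log y) := by ring
    linarith
  refine h8.trans ?_
  linarith

/-- **the analytic facts for the residue classes** -/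
theorem RC.ok (ρ : RC) : Ok ρ.Φ ρ.δ :=
  ⟨ρ.δ_pos, ρ.δ_le, ρ.up, ρ.low, ρ.act, ρ.pas, ρ.sq⟩

end Q283.GM
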